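import Pool.Agent.PW.StmtsA

/-!
Squad PW, rows RRS, BAS (helper81).
-/

set_option autoImplicit false

namespace Pool.Agent.PW.H81

open MvPolynomial
open Pool.Agent.RS (FF io)

theorem jun_ne {E : Type} [Field E] (k : ℕ) (b : MvPolynomial ℕ E) (hb : b ∈ JUN E k) : b ≠ 0 := by
  unfold JUN at hb
  induction hb using Submonoid.closure_induction with
  | mem x hx => exact hx.1
  | one => exact one_ne_zero
  | mul x y _ _ hx hy => exact mul_ne_zero hx hy

theorem io_ne {E : Type} [Field E] (b : MvPolynomial ℕ E) (hb : b ≠ 0) : io E b ≠ 0 := by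
  intro h
  exact hb ((map_eq_zero_iff (io E) (IsFractionRing.injective _ _)).1 h)

/-- row RRS -/
theorem rrs (der : DerStmt) : RrsStmt := by
  intro E _ k
  have hne : ∀ b ∈ JUN E k, io E b ≠ 0 := fun b hb => io_ne b (jun_ne k b hb)
  obtain ⟨d1, -, d3⟩ := der E
  refine ⟨jun_ne k, ⟨{ carrier := {w | RR k w}
                       mul_mem' := ?_
                       add_mem' := ?_
                       algebraMap_mem' := ?_ }, fun w => Iff.rfl⟩, ?_, ?_, ?_, ?_⟩
  · rintro _ _ ⟨a, b, hb, rfl⟩ ⟨a', b', hb', rfl⟩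
    exact ⟨a * a', b * b', (JUN E k).mul_mem hb hb', by rw [map_mul, map_mul, div_mul_div_comm]⟩
  · rintro _ _ ⟨a, b, hb, rfl⟩ ⟨a', b', hb', rfl⟩
    refine ⟨a * b' + b * a', b * b', (JUN E k).mul_mem hb hb', ?_⟩
    rw [map_add, map_mul, map_mul, map_mul, div_add_div _ _ (hne b hb) (hne b' hb')]
  · intro r
    refine ⟨C r, 1, (JUN E k).one_mem, ?_⟩
    rw [map_one, div_one]
    rfl
  · rintro i _ ⟨a, b, hb, rfl⟩
    refine ⟨b * pderiv i a - a * pderiv i b, b * b, (JUN E k).mul_mem hb hb, ?_⟩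
    rw [d3 (dd i) _ _ (hne b hb), d1, d1, map_sub, map_mul, map_mul, map_mul, sq]
  · rintro k' _ hk ⟨a, b, hb, rfl⟩
    refine ⟨a, b, ?_, rfl⟩
    unfold JUN at hb ⊢
    refine Submonoid.closure_mono ?_ hb
    intro x hx
    exact ⟨hx.1, hx.2.trans hk⟩
  · intro a
    exact ⟨a, 1, (JUN E k).one_mem, by rw [map_one, div_one]⟩
  · intro h h0 hk
    exact ⟨1, h, Submonoid.subset_closure ⟨h0, hk⟩, by rw [map_one, one_div]⟩

/-- row BAS -/
theorem bas (zer : ZerStmt) (fgz : FgzStmt) : BasStmt := by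
  intro E D _ _ _ _ _ ζ c
  have h0 : ∀ (G : Finset ℕ) (W : FF E), FG 0 G W → Zer ζ G W → W = 0 := by
    intro G W hW hZ
    obtain ⟨a, b, hb, ha, hbG, rfl⟩ := ((fgz E G W).1).1 hW
    obtain ⟨-, -, -, z4, z5⟩ := zer E D ζ G
    have hPb : Ph ζ G b ≠ 0 := fun h => hb (z4 b hbG h)
    have hPa := z5 a b hPb hZ
    rw [z4 a ha hPa, map_zero, zero_div]
  induction c with
  | zero =>
    intro G W hW hZ
    exact h0 G W hW (hZ G subset_rfl (by omega))
  | succ c ih =>
    intro G W hW hZ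
    refine h0 G W ?_ (hZ G subset_rfl (by omega))
    intro i hi
    refine ih (insert i G) (dd i W) (hW i hi) ?_
    intro J hJ hcard
    rw [Finset.card_insert_of_notMem hi] at hcard
    refine (zer E D ζ J).2.2.1 i (hJ (Finset.mem_insert_self i G)) W ?_
    exact hZ J (fun x hx => hJ (Finset.mem_insert_of_mem hx)) (by omega)

end Pool.Agent.PW.H81
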